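import Pool.Agent.Q273.V.Stm2

set_option autoImplicit false

/-!
The index form of a cubic field is maximal.
-/

namespace Q257.V

open Polynomial Q273.V

variable {K : Type} [Field K] [NumberField K]

/-- a generator of a cubic field satisfies no equation of degree at most two -/
theorem gen3 (h3 : Module.finrank ℚ K = 3) (x : K) (hx : IntermediateField.adjoin ℚ {x} = ⊤)
    (b c d : ℤ) (h : (b : K) * x ^ 2 + c * x + d = 0) : b = 0 ∧ c = 0 ∧ d = 0 := by
  have hint : IsIntegral ℚ x := Algebra.IsIntegral.isIntegral x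
  have hdeg : (minpoly ℚ x).natDegree = 3 := by
    rw [← IntermediateField.adjoin.finrank hint, hx, IntermediateField.finrank_top', h3]
  set P : ℚ[X] := C (b : ℚ) * X ^ 2 + C (c : ℚ) * X + C (d : ℚ) with hP
  have hroot : aeval x P = 0 := by
    rw [hP]
    simp only [map_add, map_mul, map_pow, aeval_X, map_intCast]
    exact h
  have hP0 : P = 0 := by
    by_contra hne
    have h1 := minpoly.degree_le_of_ne_zero ℚ x hne hroot
    have h2 := natDegree_le_natDegree h1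
    rw [hdeg] at h2
    have h4 : P.natDegree ≤ 2 := by
      rw [hP]
      exact natDegree_quadratic_le
    omega
  have hb : P.coeff 2 = b := by
    rw [hP]; simp only [coeff_add, coeff_C_mul, coeff_X_pow, coeff_X, coeff_C]; norm_num
  have hc : P.coeff 1 = c := by
    rw [hP]; simp only [coeff_add, coeff_C_mul, coeff_X_pow, coeff_X, coeff_C]; norm_num
  have hd : P.coeff 0 = d := by
    rw [hP]; simp only [coeff_add, coeff_C_mul, coeff_X_pow, coeff_X, coeff_C]; norm_num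
  rw [hP0] at hb hc hd
  simp only [coeff_zero] at hb hc hd
  exact ⟨by exact_mod_cast hb.symm, by exact_mod_cast hc.symm, by exact_mod_cast hd.symm⟩

/-- another generator -/
theorem gen_of {x y : K} (hx : IntermediateField.adjoin ℚ {x} = ⊤)
    (h : x ∈ IntermediateField.adjoin ℚ {y}) : IntermediateField.adjoin ℚ {y} = ⊤ := by
  rw [eq_top_iff, ← hx, IntermediateField.adjoin_simple_le_iff]
  exact h

/-- a square factor of the discriminant is impossible -/
theorem sq_absurd {m D : ℤ} {k : ℤ} (hD : D ≠ 0) (hk : 2 ≤ k) (h : k * (m ^ 2 * D) = D) : False := by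
  have h1 : k * m ^ 2 = 1 := by
    have : (k * m ^ 2 - 1) * D = 0 := by linear_combination h
    rcases mul_eq_zero.mp this with h2 | h2
    · linarith
    · exact absurd h2 hD
  have h2 : 0 ≤ m ^ 2 := sq_nonneg m
  rcases eq_or_lt_of_le h2 with h3 | h3
  · rw [← h3] at h1; simp at h1
  · have : 1 ≤ m ^ 2 := h3
    nlinarith

theorem chart (hdmin : S_DMIN) (h3 : Module.finrank ℚ K = 3) {a b c d : ℤ} {x : K}
    (hx : IntermediateField.adjoin ℚ {x} = ⊤) (ha : a ≠ 0)
    (heq : (a : K) * x ^ 3 + b * x ^ 2 + c * x + d = 0) (hD : D4 a b c d = NumberField.discr K)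
    {p : ℕ} (hp : p.Prime) (s : ℤ) (h1 : (p : ℤ) ^ 2 ∣ a * s ^ 3 + b * s ^ 2 + c * s + d)
    (h2 : (p : ℤ) ∣ 3 * a * s ^ 2 + 2 * b * s + c) : False := by
  obtain ⟨d', hd'⟩ := h1
  obtain ⟨c', hc'⟩ := h2
  have hpK : (p : K) ≠ 0 := Nat.cast_ne_zero.mpr hp.ne_zero
  set y : K := (x - s) / p with hy
  have hxy : x = p * y + s := by rw [hy]; field_simp; ring
  have hgen : IntermediateField.adjoin ℚ {y} = ⊤ := by
    apply gen_of hx
    rw [hxy]
    have hm : y ∈ IntermediateField.adjoin ℚ {y} := IntermediateField.mem_adjoin_simple_self ℚ y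
    exact add_mem (mul_mem (natCast_mem _ _) hm) (intCast_mem _ _)
  have hdK : (a : K) * s ^ 3 + b * s ^ 2 + c * s + d = p ^ 2 * d' := by exact_mod_cast hd'
  have hcK : 3 * (a : K) * s ^ 2 + 2 * b * s + c = p * c' := by exact_mod_cast hc'
  have hroot : (((p * a : ℤ) : ℤ) : K) * y ^ 3 + ((3 * a * s + b : ℤ) : K) * y ^ 2 + (c' : K) * y +
      (d' : K) = 0 := by
    have h5 : (p : K) ^ 2 * ((p : K) * a * y ^ 3 + (3 * a * s + b) * y ^ 2 + c' * y + d') = 0 := by
      rw [hxy] at heq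
      linear_combination heq - (p : K) * y * hcK - hdK
    have h6 := (mul_eq_zero.mp h5).resolve_left (pow_ne_zero 2 hpK)
    push_cast
    exact h6
  have hpa : ((p : ℤ) * a) ≠ 0 := mul_ne_zero (by exact_mod_cast hp.ne_zero) ha
  obtain ⟨m, hm0, hm⟩ := hdmin K h3 (p * a) (3 * a * s + b) c' d' y hgen hpa hroot
  have hDD : D4 a b c d = (p : ℤ) ^ 2 * D4 (p * a) (3 * a * s + b) c' d' := by
    have e1 : D4 a b c d = D4 a (3 * a * s + b) (3 * a * s ^ 2 + 2 * b * s + c)
        (a * s ^ 3 + b * s ^ 2 + c * s + d) := by unfold D4; ring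
    rw [e1, hc', hd']
    unfold D4; ring
  have hp2 : (2 : ℤ) ≤ (p : ℤ) ^ 2 := by
    have : (2 : ℤ) ≤ p := by exact_mod_cast hp.two_le
    nlinarith
  exact sq_absurd (NumberField.discr_ne_zero K) hp2 (by rw [← hm, ← hDD, hD])

/-- chart lemma at a primitive vector with second coordinate prime to `p` -/
theorem chart2 (hdmin : S_DMIN) (h3 : Module.finrank ℚ K = 3) {a b c d : ℤ} {x : K}
    (hx : IntermediateField.adjoin ℚ {x} = ⊤) (ha : a ≠ 0)
    (heq : (a : K) * x ^ 3 + b * x ^ 2 + c * x + d = 0) (hD : D4 a b c d = NumberField.discr K)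
    {p : ℕ} (hp : p.Prime) (u v : ℤ) (hv : ¬ (p : ℤ) ∣ v)
    (h1 : (p : ℤ) ^ 2 ∣ a * u ^ 3 + b * u ^ 2 * v + c * u * v ^ 2 + d * v ^ 3)
    (h2 : (p : ℤ) ∣ 3 * a * u ^ 2 + 2 * b * u * v + c * v ^ 2) : False := by
  have hpp : Prime (p : ℤ) := Nat.prime_iff_prime_int.mp hp
  have hcop : IsCoprime v ((p : ℤ) ^ 2) := by
    apply IsCoprime.pow_right
    exact (hpp.coprime_iff_not_dvd.mpr hv).symm
  obtain ⟨w, w', hw⟩ := hcop
  -- w * v + w' * p^2 = 1
  set s : ℤ := u * w with hs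
  have hsv : s * v = u - u * w' * (p : ℤ) ^ 2 := by rw [hs]; linear_combination u * hw
  have hcop3 : IsCoprime ((p : ℤ) ^ 2) (v ^ 3) := by
    apply IsCoprime.pow_right
    exact ⟨w', w, by linear_combination hw⟩
  have hcop2 : IsCoprime (p : ℤ) (v ^ 2) := by
    apply IsCoprime.pow_right
    exact hpp.coprime_iff_not_dvd.mpr hv
  apply chart hdmin h3 hx ha heq hD hp s
  · apply hcop3.dvd_of_dvd_mul_left
    have e : v ^ 3 * (a * s ^ 3 + b * s ^ 2 + c * s + d) =
        a * (s * v) ^ 3 + b * (s * v) ^ 2 * v + c * (s * v) * v ^ 2 + d * v ^ 3 := by ring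
    rw [e, hsv]
    have e2 : a * (u - u * w' * (p : ℤ) ^ 2) ^ 3 + b * (u - u * w' * (p : ℤ) ^ 2) ^ 2 * v +
        c * (u - u * w' * (p : ℤ) ^ 2) * v ^ 2 + d * v ^ 3 =
        (a * u ^ 3 + b * u ^ 2 * v + c * u * v ^ 2 + d * v ^ 3) + (p : ℤ) ^ 2 *
          (- (u * w') * (a * (3 * u ^ 2 - 3 * u * (u * w' * (p : ℤ) ^ 2) +
            (u * w' * (p : ℤ) ^ 2) ^ 2) + b * v * (2 * u - u * w' * (p : ℤ) ^ 2) +
            c * v ^ 2)) := by ring
    rw [e2]
    exact dvd_add h1 (dvd_mul_right _ _)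
  · apply hcop2.dvd_of_dvd_mul_left
    have e : v ^ 2 * (3 * a * s ^ 2 + 2 * b * s + c) =
        3 * a * (s * v) ^ 2 + 2 * b * (s * v) * v + c * v ^ 2 := by ring
    rw [e, hsv]
    have e2 : 3 * a * (u - u * w' * (p : ℤ) ^ 2) ^ 2 + 2 * b * (u - u * w' * (p : ℤ) ^ 2) * v +
        c * v ^ 2 = (3 * a * u ^ 2 + 2 * b * u * v + c * v ^ 2) + (p : ℤ) *
          (- (u * w' * p) * (3 * a * (2 * u - u * w' * (p : ℤ) ^ 2) + 2 * b * v)) := by ring
    rw [e2]
    exact dvd_add h2 (dvd_mul_right _ _)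

theorem maxk (hindex : S_INDEX) (hdmin : S_DMIN) : S_MAXK := by
  intro K _ _ h3
  obtain ⟨a, b, c, d, x, hx, heq, hD'⟩ := hindex K h3
  have hD : D4 a b c d = NumberField.discr K := hD'
  have hdisc := NumberField.discr_ne_zero K
  have ha : a ≠ 0 := by
    intro h0
    rw [h0] at heq
    obtain ⟨h1, h2, h4⟩ := gen3 h3 x hx b c d (by linear_combination heq)
    apply hdisc
    rw [← hD, h0, h1, h2, h4]
    unfold D4; ring
  have hx0 : x ≠ 0 := by
    intro h0
    obtain ⟨h1, h2, h4⟩ := gen3 h3 x hx 0 1 0 (by rw [h0]; push_cast; ring)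
    exact one_ne_zero h2
  have hd : d ≠ 0 := by
    intro h0
    have h5 : x * ((a : K) * x ^ 2 + b * x + c) = 0 := by
      rw [h0] at heq
      push_cast at heq
      linear_combination heq
    have h6 := (mul_eq_zero.mp h5).resolve_left hx0
    exact ha (gen3 h3 x hx a b c h6).1
  have hxinv : IntermediateField.adjoin ℚ {x⁻¹} = ⊤ := by
    apply gen_of hx
    have hm : x⁻¹ ∈ IntermediateField.adjoin ℚ {x⁻¹} :=
      IntermediateField.mem_adjoin_simple_self ℚ x⁻¹
    have := inv_mem hm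
    rwa [inv_inv] at this
  have heqinv : (d : K) * x⁻¹ ^ 3 + c * x⁻¹ ^ 2 + b * x⁻¹ + a = 0 := by
    have e : (d : K) * x⁻¹ ^ 3 + c * x⁻¹ ^ 2 + b * x⁻¹ + a =
        x⁻¹ ^ 3 * ((a : K) * x ^ 3 + b * x ^ 2 + c * x + d) := by
      field_simp
      ring
    rw [e, heq, mul_zero]
  have hDinv : D4 d c b a = NumberField.discr K := by
    rw [← hD]; unfold D4; ring
  refine ⟨a, b, c, d, x, hx, ha, heq, hD, ?_⟩
  intro p hp
  have hpp : Prime (p : ℤ) := Nat.prime_iff_prime_int.mp hp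
  constructor
  · rintro ⟨⟨a', rfl⟩, ⟨b', rfl⟩, ⟨c', rfl⟩, ⟨d', rfl⟩⟩
    have hpK : (p : K) ≠ 0 := Nat.cast_ne_zero.mpr hp.ne_zero
    have ha' : a' ≠ 0 := fun h => ha (by rw [h, mul_zero])
    have heq' : (a' : K) * x ^ 3 + b' * x ^ 2 + c' * x + d' = 0 := by
      have h5 : (p : K) * ((a' : K) * x ^ 3 + b' * x ^ 2 + c' * x + d') = 0 := by
        push_cast at heq
        linear_combination heq
      exact (mul_eq_zero.mp h5).resolve_left hpK
    obtain ⟨m, hm0, hm⟩ := hdmin K h3 a' b' c' d' x hx ha' heq'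
    have hp2 : (2 : ℤ) ≤ (p : ℤ) ^ 4 := by
      have : (2 : ℤ) ≤ p := by exact_mod_cast hp.two_le
      nlinarith [sq_nonneg ((p : ℤ) ^ 2 - 1), sq_nonneg ((p:ℤ)^2)]
    refine sq_absurd hdisc hp2 (m := m) ?_
    rw [← hm, ← hD]
    unfold D4; ring
  · intro u v huv ⟨h1, h2, h4⟩
    by_cases hv : (p : ℤ) ∣ v
    · have hu : ¬ (p : ℤ) ∣ u := fun h => huv ⟨h, hv⟩
      apply chart2 hdmin h3 hxinv hd heqinv hDinv hp v u hu
      · have e : d * v ^ 3 + c * v ^ 2 * u + b * v * u ^ 2 + a * u ^ 3 =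
          a * u ^ 3 + b * u ^ 2 * v + c * u * v ^ 2 + d * v ^ 3 := by ring
        rw [e]; exact h1
      · have e : 3 * d * v ^ 2 + 2 * c * v * u + b * u ^ 2 =
          b * u ^ 2 + 2 * c * u * v + 3 * d * v ^ 2 := by ring
        rw [e]; exact h4
    · exact chart2 hdmin h3 hx ha heq hD hp u v hv h1 h2

end Q257.V
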