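import Pool.Agent.Q273.V.Stm2
import Pool.Agent.Q239.V.MIN
import Pool.Agent.Q257.V.MAXK

set_option autoImplicit false

/-!
The number of orbits of generators of a cubic field.
-/

namespace Q257.V

open Polynomial Q273.V

theorem eqv_symm {K : Type} [Field K] {x y : K} (h : Eqv x y) : Eqv y x := by
  obtain ⟨p, q, r, t, h1, h2, rfl⟩ := h
  have hdet : (p : K) * t - q * r = 1 := by
    have := congrArg (Int.cast : ℤ → K) h1
    push_cast at this
    exact this
  have e : (((-r : ℤ) : ℤ) : K) * (((p : K) * x + q) / (r * x + t)) + p = 1 / (r * x + t) := by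
    rw [eq_div_iff h2, add_mul, mul_assoc, div_mul_cancel₀ _ h2]
    push_cast
    linear_combination hdet
  refine ⟨t, -q, -r, p, by linarith, ?_, ?_⟩
  · rw [e]; exact one_div_ne_zero h2
  · rw [e, div_div_eq_mul_div, div_one, add_mul, mul_assoc, div_mul_cancel₀ _ h2]
    push_cast
    linear_combination (-x) * hdet

theorem eqv_trans {K : Type} [Field K] {x y z : K} (h : Eqv x y) (h' : Eqv y z) : Eqv x z := by
  obtain ⟨p, q, r, t, h1, h2, rfl⟩ := h
  obtain ⟨p', q', r', t', h1', h2', rfl⟩ := h'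
  have e1 : ((r' : K) * (((p : K) * x + q) / (r * x + t)) + t') * (r * x + t) =
      (((r' * p + t' * r : ℤ) : K) * x + ((r' * q + t' * t : ℤ) : K)) := by
    rw [add_mul, mul_assoc, div_mul_cancel₀ _ h2]
    push_cast
    ring
  have e2 : ((p' : K) * (((p : K) * x + q) / (r * x + t)) + q') * (r * x + t) =
      (((p' * p + q' * r : ℤ) : K) * x + ((p' * q + q' * t : ℤ) : K)) := by
    rw [add_mul, mul_assoc, div_mul_cancel₀ _ h2]
    push_cast
    ring
  have h3 : ((r' * p + t' * r : ℤ) : K) * x + ((r' * q + t' * t : ℤ) : K) ≠ 0 := by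
    rw [← e1]
    exact mul_ne_zero h2' h2
  refine ⟨p' * p + q' * r, p' * q + q' * t, r' * p + t' * r, r' * q + t' * t, ?_, h3, ?_⟩
  · linear_combination (p * t - q * r) * h1' + h1
  · rw [← e1, ← e2, mul_div_mul_right _ _ h2]

theorem eqv_refl {K : Type} [Field K] (x : K) : Eqv x x :=
  ⟨1, 0, 0, 1, by norm_num, by simp, by simp⟩

/-- every generator has a minimal polynomial over the integers -/
theorem ex_min {K : Type} [Field K] [NumberField K] (h3 : Module.finrank ℚ K = 3) (x : K)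
    (hx : IntermediateField.adjoin ℚ {x} = ⊤) : ∃ f : ℤ[X], IsMin 3 f x := by
  have hint : IsIntegral ℚ x := Algebra.IsIntegral.isIntegral x
  have hdeg : (minpoly ℚ x).natDegree = 3 := by
    rw [← IntermediateField.adjoin.finrank hint, hx, IntermediateField.finrank_top', h3]
  have hirr : Irreducible (minpoly ℚ x) := minpoly.irreducible hint
  obtain ⟨b, hb0, hb⟩ := IsLocalization.integerNormalization_spec
    (nonZeroDivisors ℤ) (minpoly ℚ x)
  have hbne : b ≠ 0 := nonZeroDivisors.ne_zero hb0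
  set g := IsLocalization.integerNormalization (nonZeroDivisors ℤ) (minpoly ℚ x) with hg
  have hb' : g.map (algebraMap ℤ ℚ) = C (b : ℚ) * minpoly ℚ x := by
    rw [hb]
    ext n
    simp
  have hbQ : (b : ℚ) ≠ 0 := by exact_mod_cast hbne
  have hg0 : g ≠ 0 := by
    intro h0
    rw [h0, Polynomial.map_zero] at hb'
    exact (mul_ne_zero (C_ne_zero.mpr hbQ) hirr.ne_zero) hb'.symm
  have hcont : (g.content : ℚ) ≠ 0 := by
    have : g.content ≠ 0 := by rwa [Ne, content_eq_zero_iff]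
    exact_mod_cast this
  have hfac : g.map (algebraMap ℤ ℚ) = C (g.content : ℚ) * g.primPart.map (algebraMap ℤ ℚ) := by
    conv_lhs => rw [g.eq_C_content_mul_primPart]
    rw [Polynomial.map_mul, map_C]
    rfl
  have hpp : g.primPart.map (algebraMap ℤ ℚ) = C ((b : ℚ) / g.content) * minpoly ℚ x := by
    have h5 : C (g.content : ℚ) * g.primPart.map (algebraMap ℤ ℚ) =
        C (g.content : ℚ) * (C ((b : ℚ) / g.content) * minpoly ℚ x) := by
      rw [← hfac, hb', ← mul_assoc, ← C_mul, mul_div_cancel₀ _ hcont]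
    exact mul_left_cancel₀ (C_ne_zero.mpr hcont) h5
  have hc0 : (b : ℚ) / g.content ≠ 0 := div_ne_zero hbQ hcont
  refine ⟨g.primPart, ?_, ?_, ?_⟩
  · rw [IsPrimitive.Int.irreducible_iff_irreducible_map_cast g.isPrimitive_primPart]
    have h6 : g.primPart.map (Int.castRingHom ℚ) = C ((b : ℚ) / g.content) * minpoly ℚ x := hpp
    rw [h6]
    exact (irreducible_isUnit_mul (isUnit_C.mpr (isUnit_iff_ne_zero.mpr hc0))).mpr hirr
  · have h7 := congrArg natDegree hpp
    rw [natDegree_C_mul hc0, hdeg, natDegree_map_eq_of_injective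
      (RingHom.injective_int (algebraMap ℤ ℚ))] at h7
    exact h7
  · have h8 : aeval x (g.primPart.map (algebraMap ℤ ℚ)) = 0 := by
      rw [hpp, map_mul, minpoly.aeval, mul_zero]
    rwa [aeval_map_algebraMap] at h8

theorem orb (hmax : S_MAXK) (hrel : S_REL) (hcont : S_CONT) (hinv : S_INV3) (hcntt : S_CNTT) :
    S_ORB := by
  intro θ hθ
  obtain ⟨C, hC, H⟩ := hcntt θ hθ
  refine ⟨C, hC, ?_⟩
  intro K _ _ h3 B G f hB hG hne
  obtain ⟨a, b, c, d, z, hz, ha, heq, hD, hmx⟩ := hmax K h3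
  have hdK : (NumberField.discr K : ℝ) ≠ 0 := by exact_mod_cast NumberField.discr_ne_zero K
  have key : ∀ x ∈ G, ∃ t : ℤ × ℤ × ℤ, (1 ≤ t.1 ∧ t.2.2 ≠ 0 ∧ 0 ≤ t.2.1 ∧ t.2.1 < t.1 ∧
      Int.gcd (Int.gcd t.1 t.2.1) t.2.2 = 1 ∧
      |(t.1 : ℝ) * t.2.2| ^ 3 ≤ B * (ct a b c d t.1 t.2.1 t.2.2 : ℝ) ^ 2) ∧
      Eqv x (((t.2.2 : K) * z - t.2.1) / t.1) := by
    intro x hx
    obtain ⟨hxmin, hxD⟩ := hG x hx
    have hxtop := Pool.Agent.Q239.V.adj_top (s := 3) (by norm_num) h3 hxmin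
    obtain ⟨α, β, δ, h1, h2, h4, h5, h6, h7⟩ := hrel K h3 z x hz hxtop
    refine ⟨(α, β, δ), ⟨h1, h2, h4, h5, h6, ?_⟩, h7⟩
    show |(α : ℝ) * δ| ^ 3 ≤ B * (ct a b c d α β δ : ℝ) ^ 2
    have hα : (α : K) ≠ 0 := by exact_mod_cast (by omega : α ≠ 0)
    have hδ : (δ : K) ≠ 0 := by exact_mod_cast h2
    set x' : K := ((δ : K) * z - β) / α with hx'
    have hzx : z = (α * x' + β) / δ := by
      rw [hx']; field_simp; ring
    have hx'top : IntermediateField.adjoin ℚ {x'} = ⊤ := by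
      apply gen_of hz
      rw [hzx]
      have hm : x' ∈ IntermediateField.adjoin ℚ {x'} :=
        IntermediateField.mem_adjoin_simple_self ℚ x'
      exact div_mem (add_mem (mul_mem (intCast_mem _ _) hm) (intCast_mem _ _)) (intCast_mem _ _)
    obtain ⟨f', hf'⟩ := ex_min h3 x' hx'top
    have e1 := hinv K h3 x x' (f x) f' hxmin hf' h7
    have e2 := hcont K h3 a b c d α β δ z f' ha h1 h2 heq hf'
    rw [← e1, hD] at e2
    have e3 : (D3 (f x) : ℝ) * (ct a b c d α β δ : ℝ) ^ 4 =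
        ((α : ℝ) * δ) ^ 6 * (NumberField.discr K : ℝ) := by exact_mod_cast e2
    have e4 : |(D3 (f x) : ℝ)| * (ct a b c d α β δ : ℝ) ^ 4 =
        (|(α : ℝ) * δ| ^ 3) ^ 2 * |(NumberField.discr K : ℝ)| := by
      have h8 := congrArg abs e3
      rw [abs_mul, abs_mul, abs_pow, abs_pow, Nat.abs_cast] at h8
      rw [h8]; ring
    have hdpos : 0 < |(NumberField.discr K : ℝ)| := abs_pos.mpr hdK
    have h9 : (|(α : ℝ) * δ| ^ 3) ^ 2 ≤ (B * (ct a b c d α β δ : ℝ) ^ 2) ^ 2 := by
      have h10 : (|(α : ℝ) * δ| ^ 3) ^ 2 * |(NumberField.discr K : ℝ)| ≤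
          (B * (ct a b c d α β δ : ℝ) ^ 2) ^ 2 * |(NumberField.discr K : ℝ)| := by
        rw [← e4]
        have h11 := mul_le_mul_of_nonneg_right hxD
          (by positivity : (0 : ℝ) ≤ (ct a b c d α β δ : ℝ) ^ 4)
        calc |(D3 (f x) : ℝ)| * (ct a b c d α β δ : ℝ) ^ 4 ≤ _ := h11
          _ = _ := by ring
      exact le_of_mul_le_mul_right h10 hdpos
    exact (sq_le_sq₀ (by positivity) (by positivity)).mp h9
  choose! t ht1 ht2 using key
  have hinj : Set.InjOn t G := by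
    intro x hx y hy hxy
    by_contra hne'
    apply hne x hx y hy hne'
    have h1 := ht2 x hx
    have h2 := ht2 y hy
    rw [← hxy] at h2
    exact eqv_trans h1 (eqv_symm h2)
  have h4 := H a b c d hmx B (G.image t) hB (by
    intro τ hτ
    rw [Finset.mem_image] at hτ
    obtain ⟨x, hx, rfl⟩ := hτ
    exact ht1 x hx)
  rwa [Finset.card_image_of_injOn hinj] at h4

end Q257.V
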