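import Pool.Agent.Q273.V.Stm2
import Pool.Agent.Q239.V.MIN
import Pool.Agent.Q257.V.ORB

set_option autoImplicit false

/-!
The first moment of one cubic field, from the orbits.
-/

namespace Q257.V

open Polynomial Q273.V

variable {K : Type} [Field K] [NumberField K]

theorem disc_ge (hdmin : S_DMIN) (h3 : Module.finrank ℚ K = 3) {f : ℤ[X]} {x : K}
    (h : IsMin 3 f x) : |(NumberField.discr K : ℝ)| ≤ |(D3 f : ℝ)| := by
  have htop := Pool.Agent.Q239.V.adj_top (s := 3) (by norm_num) h3 h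
  obtain ⟨h1, h2, h4⟩ := h
  have hlc : f.coeff 3 ≠ 0 := by
    have : f.leadingCoeff ≠ 0 := leadingCoeff_ne_zero.mpr h1.ne_zero
    rwa [leadingCoeff, h2] at this
  have heq : (f.coeff 3 : K) * x ^ 3 + f.coeff 2 * x ^ 2 + f.coeff 1 * x + f.coeff 0 = 0 := by
    rw [aeval_def, eval₂_eq_sum_range, h2] at h4
    simp only [Finset.sum_range_succ, Finset.sum_range_zero, algebraMap_int_eq, eq_intCast] at h4
    linear_combination h4
  obtain ⟨m, hm0, hm⟩ := hdmin K h3 _ _ _ _ x htop hlc heq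
  have e : (D3 f : ℝ) = (m : ℝ) ^ 2 * (NumberField.discr K : ℝ) := by
    have : D3 f = m ^ 2 * NumberField.discr K := hm
    exact_mod_cast this
  rw [e, abs_mul]
  have h5 : (1 : ℝ) ≤ |(m : ℝ) ^ 2| := by
    rw [abs_pow]
    apply one_le_pow₀
    exact_mod_cast Int.one_le_abs hm0
  nlinarith [abs_nonneg (NumberField.discr K : ℝ)]

theorem norm_sub_le_max (z w : ℂ) : ‖z - w‖ ≤ 2 * (max 1 ‖z‖ * max 1 ‖w‖) := by
  have h1 : ‖z - w‖ ≤ ‖z‖ + ‖w‖ := norm_sub_le z w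
  have h2 := le_max_left 1 ‖z‖
  have h3 := le_max_right 1 ‖z‖
  have h4 := le_max_left 1 ‖w‖
  have h5 := le_max_right 1 ‖w‖
  nlinarith

theorem disc_le (hdrt : S_DRT) (hmin : S_MIN) (h3 : Module.finrank ℚ K = 3)
    (e : Fin 3 ≃ (K →+* ℂ)) {f : ℤ[X]} {x : K} (h : IsMin 3 f x) :
    |(D3 f : ℝ)| ≤ 64 * M f ^ 4 := by
  classical
  obtain ⟨-, -, hM, hlc, -⟩ := hmin K 3 x f (by norm_num) h3 h
  obtain ⟨h1, -⟩ := hdrt K h3 e x f h
  have hprod : ∏ σ : K →+* ℂ, max 1 ‖σ x‖ =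
      max 1 ‖e 0 x‖ * max 1 ‖e 1 x‖ * max 1 ‖e 2 x‖ := by
    rw [← Equiv.prod_comp e, Fin.prod_univ_three]
  rw [h1, hM, hprod]
  set u := max 1 ‖e 0 x‖
  set v := max 1 ‖e 1 x‖
  set w := max 1 ‖e 2 x‖
  have hu : 1 ≤ u := le_max_left _ _
  have hv : 1 ≤ v := le_max_left _ _
  have hw : 1 ≤ w := le_max_left _ _
  have a1 : ‖e 0 x - e 1 x‖ ≤ 2 * (u * v) := norm_sub_le_max _ _
  have a2 : ‖e 0 x - e 2 x‖ ≤ 2 * (u * w) := norm_sub_le_max _ _
  have a3 : ‖e 1 x - e 2 x‖ ≤ 2 * (v * w) := norm_sub_le_max _ _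
  have a4 : ‖e 0 x - e 1 x‖ * ‖e 0 x - e 2 x‖ * ‖e 1 x - e 2 x‖ ≤
      (2 * (u * v)) * (2 * (u * w)) * (2 * (v * w)) := by gcongr
  have a5 : (‖e 0 x - e 1 x‖ * ‖e 0 x - e 2 x‖ * ‖e 1 x - e 2 x‖) ^ 2 ≤
      ((2 * (u * v)) * (2 * (u * w)) * (2 * (v * w))) ^ 2 := by gcongr
  calc lc f ^ 4 * (‖e 0 x - e 1 x‖ * ‖e 0 x - e 2 x‖ * ‖e 1 x - e 2 x‖) ^ 2 ≤
      lc f ^ 4 * ((2 * (u * v)) * (2 * (u * w)) * (2 * (v * w))) ^ 2 := by gcongr
    _ = 64 * (lc f * (u * v * w)) ^ 4 := by ring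

/-- the relation as a setoid -/
def eqvS (K : Type) [Field K] : Setoid K where
  r := Eqv
  iseqv := ⟨eqv_refl, eqv_symm, eqv_trans⟩

/-- the logarithmic count -/
theorem log_count (η : ℝ) (hη : 0 < η) : ∃ c : ℝ, 0 < c ∧ ∀ (J : ℕ) (Y : ℝ), (2 : ℝ) ^ J ≤ Y →
    ((J : ℝ) + 1) ≤ c * Y ^ η := by
  have hl : 0 < Real.log 2 := Real.log_pos (by norm_num)
  refine ⟨1 / min 1 (η * Real.log 2), by positivity, ?_⟩
  intro J Y hY
  have hc : 0 < min 1 (η * Real.log 2) := by positivity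
  rw [div_mul_eq_mul_div, one_mul, le_div_iff₀ hc]
  have h1 : ((2 : ℝ) ^ J) ^ η ≤ Y ^ η := Real.rpow_le_rpow (by positivity) hY hη.le
  have h2 : ((2 : ℝ) ^ J) ^ η = Real.exp (J * (η * Real.log 2)) := by
    rw [← Real.rpow_natCast, ← Real.rpow_mul (by norm_num), Real.rpow_def_of_pos (by norm_num)]
    ring_nf
  have h4 : J * (η * Real.log 2) + 1 ≤ Real.exp (J * (η * Real.log 2)) := Real.add_one_le_exp _
  have h5 : min 1 (η * Real.log 2) ≤ 1 := min_le_left _ _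
  have h6 : min 1 (η * Real.log 2) ≤ η * Real.log 2 := min_le_right _ _
  have h7 : (0 : ℝ) ≤ J := Nat.cast_nonneg J
  have h8 := mul_le_mul_of_nonneg_left h6 h7
  nlinarith

theorem suma2 (hshell : S_SHELL) (horb : S_ORB) (hdrt : S_DRT) (hdmin : S_DMIN) (hmin : S_MIN)
    (henum : S_ENUM) : S_SUMA2 := by
  classical
  intro n ε hε
  obtain ⟨C1, hC1, H1⟩ := hshell n (ε / 2) (by positivity)
  obtain ⟨C2, hC2, H2⟩ := horb (ε / 8) (by positivity)
  obtain ⟨c, hc, H3⟩ := log_count (ε / 8) (by positivity)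
  refine ⟨C1 * (2 * C2 * c * 16 ^ (ε / 4)), by positivity, ?_⟩
  intro K _ _ h3 σ T F f hT hF
  obtain ⟨e, he0, -⟩ := henum K h3 σ
  set D : ℝ := |(NumberField.discr K : ℝ)| with hDdef
  have hD1 : 1 ≤ D := by
    rw [hDdef]
    exact_mod_cast Int.one_le_abs (NumberField.discr_ne_zero K)
  have hD0 : 0 < D := by linarith
  have hsD : 1 ≤ Real.sqrt D := by rw [Real.one_le_sqrt]; exact hD1
  have hsD0 : 0 < Real.sqrt D := by linarith
  have hT0 : 0 < T := by linarith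
  let q : K → Quotient (eqvS K) := Quotient.mk (eqvS K)
  have hqq : ∀ x y : K, q x = q y ↔ Eqv x y := by
    intro x y
    exact Quotient.eq (r := eqvS K)
  set Q := F.image q with hQ
  have hrep : ∀ c ∈ Q, ∃ x ∈ F, q x = c := by
    intro c hc
    rw [hQ, Finset.mem_image] at hc
    exact hc
  choose! rep hrepF hrepq using hrep
  -- the discriminants of the representatives
  have hlow : ∀ x ∈ F, D ≤ |(D3 (f x) : ℝ)| := fun x hx => disc_ge hdmin h3 (hF x hx).1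
  have hup : ∀ x ∈ F, Real.sqrt |(D3 (f x) : ℝ)| ≤ 8 * T ^ 2 := by
    intro x hx
    have h1 := disc_le hdrt hmin h3 e (hF x hx).1
    rw [Real.sqrt_le_left (by positivity)]
    have hM0 : 0 ≤ M (f x) := by
      unfold M; exact mahlerMeasure_nonneg _
    have h2 : M (f x) ^ 4 ≤ T ^ 4 := by
      have := (hF x hx).2.1
      gcongr
    calc |(D3 (f x) : ℝ)| ≤ 64 * M (f x) ^ 4 := h1
      _ ≤ 64 * T ^ 4 := by linarith
      _ = (8 * T ^ 2) ^ 2 := by ring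
  set ρ : K → ℝ := fun x => Real.sqrt |(D3 (f x) : ℝ)| / Real.sqrt D with hρ
  have hρ1 : ∀ x ∈ F, 1 ≤ ρ x := by
    intro x hx
    rw [hρ]
    simp only
    rw [one_le_div hsD0]
    exact Real.sqrt_le_sqrt (hlow x hx)
  have hρ2 : ∀ x ∈ F, ρ x ≤ 8 * T ^ 2 := by
    intro x hx
    rw [hρ]
    simp only
    rw [div_le_iff₀ hsD0]
    have := hup x hx
    nlinarith [sq_nonneg T]
  set j : K → ℕ := fun x => Nat.log 2 ⌊ρ x⌋₊ with hj
  set J : ℕ := Nat.log 2 ⌊8 * T ^ 2⌋₊ with hJ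
  have hj1 : ∀ x ∈ F, (2 : ℝ) ^ j x ≤ ρ x := by
    intro x hx
    have h1 : 1 ≤ ⌊ρ x⌋₊ := Nat.le_floor (by exact_mod_cast hρ1 x hx)
    have h2 : 2 ^ j x ≤ ⌊ρ x⌋₊ := Nat.pow_log_le_self 2 (by omega)
    have h4 : ((2 ^ j x : ℕ) : ℝ) ≤ (⌊ρ x⌋₊ : ℝ) := by exact_mod_cast h2
    push_cast at h4
    exact h4.trans (Nat.floor_le (by linarith [hρ1 x hx]))
  have hj2 : ∀ x ∈ F, ρ x ≤ (2 : ℝ) ^ (j x + 1) := by
    intro x hx
    have h2 : ⌊ρ x⌋₊ + 1 ≤ 2 ^ (j x + 1) := Nat.lt_pow_succ_log_self (by norm_num) _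
    have h4 : ((⌊ρ x⌋₊ + 1 : ℕ) : ℝ) ≤ ((2 ^ (j x + 1) : ℕ) : ℝ) := by exact_mod_cast h2
    push_cast at h4
    exact (Nat.lt_floor_add_one _).le.trans h4
  have hj3 : ∀ x ∈ F, j x ≤ J := by
    intro x hx
    exact Nat.log_mono_right (Nat.floor_le_floor (hρ2 x hx))
  have hJ1 : (2 : ℝ) ^ J ≤ 8 * T ^ 2 := by
    have h0 : (1 : ℝ) ≤ 8 * T ^ 2 := by nlinarith
    have h1 : 1 ≤ ⌊8 * T ^ 2⌋₊ := Nat.le_floor (by exact_mod_cast h0)
    have h2 : 2 ^ J ≤ ⌊8 * T ^ 2⌋₊ := Nat.pow_log_le_self 2 (by omega)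
    have h4 : ((2 ^ J : ℕ) : ℝ) ≤ (⌊8 * T ^ 2⌋₊ : ℝ) := by exact_mod_cast h2
    push_cast at h4
    exact h4.trans (Nat.floor_le (by positivity))
  -- the sum over classes
  have hsum : ∑ x ∈ F, 1 / dv (f x) (σ x) ≤
      ∑ c ∈ Q, C1 * T ^ (1 + ε / 2) / Real.sqrt |(D3 (f (rep c)) : ℝ)| := by
    rw [← Finset.sum_fiberwise_of_maps_to (s := F) (t := Q) (g := q)
      (fun x hx => Finset.mem_image_of_mem q hx)]
    apply Finset.sum_le_sum
    intro c hc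
    apply H1 K h3 σ T (F.filter fun x => q x = c) f (rep c) hT
    · rw [Finset.mem_filter]
      exact ⟨hrepF c hc, hrepq c hc⟩
    · intro x hx
      rw [Finset.mem_filter] at hx
      obtain ⟨hx1, hx2⟩ := hx
      obtain ⟨g1, g2, g3⟩ := hF x hx1
      refine ⟨g1, g2, g3, ?_⟩
      rw [← hqq, hrepq c hc, hx2]
  have hinj : ∀ c ∈ Q, ∀ c' ∈ Q, rep c = rep c' → c = c' := by
    intro c hc c' hc' h
    rw [← hrepq c hc, ← hrepq c' hc', h]
  -- the number of classes of a given size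
  have hcard : ∀ i : ℕ, (((Q.filter fun c => j (rep c) = i).card : ℕ) : ℝ) ≤
      C2 * ((2 : ℝ) ^ (i + 1)) ^ (1 + ε / 8) := by
    intro i
    have h1 := H2 K h3 ((2 : ℝ) ^ (i + 1)) ((Q.filter fun c => j (rep c) = i).image rep) f
      (one_le_pow₀ (by norm_num)) (by
        intro x hx
        rw [Finset.mem_image] at hx
        obtain ⟨c, hc, rfl⟩ := hx
        rw [Finset.mem_filter] at hc
        refine ⟨(hF _ (hrepF c hc.1)).1, ?_⟩
        have h2 := hj2 _ (hrepF c hc.1)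
        rw [hc.2] at h2
        have h4 : Real.sqrt |(D3 (f (rep c)) : ℝ)| ≤ (2 : ℝ) ^ (i + 1) * Real.sqrt D := by
          rw [hρ] at h2
          simp only at h2
          rwa [div_le_iff₀ hsD0] at h2
        have h5 : |(D3 (f (rep c)) : ℝ)| = Real.sqrt |(D3 (f (rep c)) : ℝ)| ^ 2 := by
          rw [Real.sq_sqrt (abs_nonneg _)]
        rw [h5]
        calc Real.sqrt |(D3 (f (rep c)) : ℝ)| ^ 2 ≤ ((2 : ℝ) ^ (i + 1) * Real.sqrt D) ^ 2 := by
              gcongr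
          _ = ((2 : ℝ) ^ (i + 1)) ^ 2 * D := by rw [mul_pow, Real.sq_sqrt hD0.le])
      (by
        intro x hx y hy hxy hxy2
        rw [Finset.mem_image] at hx hy
        obtain ⟨c, hc, rfl⟩ := hx
        obtain ⟨c', hc', rfl⟩ := hy
        rw [Finset.mem_filter] at hc hc'
        apply hxy
        rw [← hqq, hrepq c hc.1, hrepq c' hc'.1] at hxy2
        rw [hxy2])
    rwa [Finset.card_image_of_injOn] at h1
    intro c hc c' hc' h
    have hc2 := (Finset.mem_filter.mp (Finset.mem_coe.mp hc)).1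
    have hc2' := (Finset.mem_filter.mp (Finset.mem_coe.mp hc')).1
    exact hinj c hc2 c' hc2' h
  -- the sum of the reciprocals
  have hrec : ∑ c ∈ Q, 1 / Real.sqrt |(D3 (f (rep c)) : ℝ)| ≤
      ((J : ℝ) + 1) * (2 * C2 * (16 * T ^ 2) ^ (ε / 8)) / Real.sqrt D := by
    rw [← Finset.sum_fiberwise_of_maps_to (s := Q) (t := Finset.range (J + 1))
      (g := fun c => j (rep c)) (fun c hc => Finset.mem_range.mpr
        (Nat.lt_succ_of_le (hj3 _ (hrepF c hc))))]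
    have h1 : ∀ i ∈ Finset.range (J + 1), ∑ c ∈ Q.filter (fun c => j (rep c) = i),
        1 / Real.sqrt |(D3 (f (rep c)) : ℝ)| ≤ 2 * C2 * (16 * T ^ 2) ^ (ε / 8) / Real.sqrt D := by
      intro i hi
      have hiJ : i ≤ J := Nat.lt_succ_iff.mp (Finset.mem_range.mp hi)
      have h2 : ∀ c ∈ Q.filter (fun c => j (rep c) = i),
          1 / Real.sqrt |(D3 (f (rep c)) : ℝ)| ≤ 1 / ((2 : ℝ) ^ i * Real.sqrt D) := by
        intro c hc
        rw [Finset.mem_filter] at hc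
        have h4 := hj1 _ (hrepF c hc.1)
        rw [hc.2, hρ] at h4
        simp only at h4
        rw [le_div_iff₀ hsD0] at h4
        exact one_div_le_one_div_of_le (by positivity) h4
      calc ∑ c ∈ Q.filter (fun c => j (rep c) = i), 1 / Real.sqrt |(D3 (f (rep c)) : ℝ)| ≤
          ∑ c ∈ Q.filter (fun c => j (rep c) = i), 1 / ((2 : ℝ) ^ i * Real.sqrt D) :=
            Finset.sum_le_sum h2
        _ = ((Q.filter fun c => j (rep c) = i).card : ℝ) * (1 / ((2 : ℝ) ^ i * Real.sqrt D)) := by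
            rw [Finset.sum_const, nsmul_eq_mul]
        _ ≤ (C2 * ((2 : ℝ) ^ (i + 1)) ^ (1 + ε / 8)) * (1 / ((2 : ℝ) ^ i * Real.sqrt D)) := by
            gcongr
            exact hcard i
        _ = 2 * C2 * ((2 : ℝ) ^ (i + 1)) ^ (ε / 8) / Real.sqrt D := by
            rw [Real.rpow_add (by positivity), Real.rpow_one]
            have : (2 : ℝ) ^ (i + 1) = 2 * 2 ^ i := by ring
            rw [this]
            field_simp
        _ ≤ 2 * C2 * (16 * T ^ 2) ^ (ε / 8) / Real.sqrt D := by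
            have h5 : (2 : ℝ) ^ (i + 1) ≤ 16 * T ^ 2 := by
              have h6 : (2 : ℝ) ^ i ≤ 2 ^ J := pow_le_pow_right₀ (by norm_num) hiJ
              rw [pow_succ]
              linarith
            gcongr
    calc _ ≤ ∑ i ∈ Finset.range (J + 1), 2 * C2 * (16 * T ^ 2) ^ (ε / 8) / Real.sqrt D :=
          Finset.sum_le_sum h1
      _ = ((J : ℝ) + 1) * (2 * C2 * (16 * T ^ 2) ^ (ε / 8)) / Real.sqrt D := by
          rw [Finset.sum_const, Finset.card_range, nsmul_eq_mul]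
          push_cast
          ring
  have hJc := H3 J (8 * T ^ 2) hJ1
  have h816 : (8 * T ^ 2) ^ (ε / 8) ≤ (16 * T ^ 2) ^ (ε / 8) := by
    apply Real.rpow_le_rpow (by positivity) (by nlinarith [sq_nonneg T]) (by positivity)
  have hsq : (16 * T ^ 2) ^ (ε / 8) * (16 * T ^ 2) ^ (ε / 8) = 16 ^ (ε / 4) * T ^ (ε / 2) := by
    rw [← Real.rpow_add (by positivity), Real.mul_rpow (by norm_num) (by positivity),
      ← Real.rpow_natCast T 2, ← Real.rpow_mul hT0.le]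
    congr 2 <;> push_cast <;> ring
  have hT1 : T ^ (1 + ε) = T ^ (1 + ε / 2) * T ^ (ε / 2) := by
    rw [← Real.rpow_add hT0]
    congr 1
    ring
  calc ∑ x ∈ F, 1 / dv (f x) (σ x) ≤
      ∑ c ∈ Q, C1 * T ^ (1 + ε / 2) / Real.sqrt |(D3 (f (rep c)) : ℝ)| := hsum
    _ = C1 * T ^ (1 + ε / 2) * ∑ c ∈ Q, 1 / Real.sqrt |(D3 (f (rep c)) : ℝ)| := by
        rw [Finset.mul_sum]
        apply Finset.sum_congr rfl
        intro c _
        ring
    _ ≤ C1 * T ^ (1 + ε / 2) *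
        (((J : ℝ) + 1) * (2 * C2 * (16 * T ^ 2) ^ (ε / 8)) / Real.sqrt D) := by
        gcongr
    _ ≤ C1 * T ^ (1 + ε / 2) *
        ((c * (16 * T ^ 2) ^ (ε / 8)) * (2 * C2 * (16 * T ^ 2) ^ (ε / 8)) / Real.sqrt D) := by
        have h7 : (J : ℝ) + 1 ≤ c * (16 * T ^ 2) ^ (ε / 8) :=
          hJc.trans (mul_le_mul_of_nonneg_left h816 hc.le)
        gcongr
    _ = C1 * (2 * C2 * c * 16 ^ (ε / 4)) * T ^ (1 + ε) / Real.sqrt D := by
        rw [hT1]
        have h8 : c * (16 * T ^ 2) ^ (ε / 8) * (2 * C2 * (16 * T ^ 2) ^ (ε / 8)) =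
            2 * C2 * c * ((16 * T ^ 2) ^ (ε / 8) * (16 * T ^ 2) ^ (ε / 8)) := by ring
        rw [h8, hsq]
        ring

end Q257.V
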